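import Mathlib
set_option autoImplicit false

namespace Pool.Agent.Results.MP_f1f170_co.BoundAttained

open Finset

/-- A Sidon set (`B_2`-set): the sums `a + b` of unordered pairs (`a = b` allowed) are distinct. -/
def IsSidon {G : Type*} [AddCommGroup G] (A : Finset G) : Prop :=
  ∀ a ∈ A, ∀ b ∈ A, ∀ c ∈ A, ∀ d ∈ A, a + b = c + d → (a = c ∧ b = d) ∨ (a = d ∧ b = c)

open Classical in
/-- `σ(G,2)`: the largest size of a Sidon set in `G`. -/
noncomputable def sigma (G : Type*) [AddCommGroup G] [Fintype G] : ℕ :=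
  (Finset.univ.filter (fun A : Finset G => IsSidon A)).sup Finset.card

/-- `U(n) = ⌊(√(4n-3)+1)/2⌋`. -/
noncomputable def U (n : ℕ) : ℕ := ⌊(Real.sqrt (4 * (n : ℝ) - 3) + 1) / 2⌋₊

/-- `G` attains the bound. -/
def Attains (G : Type*) [AddCommGroup G] [Fintype G] : Prop := sigma G = U (Fintype.card G)

/-! ### the function `U` -/

lemma le_U_iff {m n : ℕ} (hm : 1 ≤ m) (hn : 1 ≤ n) : m ≤ U n ↔ m * m + 1 ≤ n + m := by
  have hn' : (1:ℝ) ≤ n := by exact_mod_cast hn
  have hm' : (1:ℝ) ≤ m := by exact_mod_cast hm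
  unfold U
  rw [Nat.le_floor_iff (by positivity), le_div_iff₀ (by norm_num)]
  have h1 : (m:ℝ) * 2 ≤ Real.sqrt (4 * (n:ℝ) - 3) + 1 ↔ 2 * (m:ℝ) - 1 ≤ Real.sqrt (4 * (n:ℝ) - 3) := by
    constructor <;> intro h <;> linarith
  rw [h1, Real.le_sqrt' (by linarith)]
  constructor
  · intro h
    have : (m:ℝ) * m + 1 ≤ n + m := by nlinarith
    exact_mod_cast this
  · intro h
    have : (m:ℝ) * m + 1 ≤ n + m := by exact_mod_cast h
    nlinarith

/-! ### bounds for Sidon sets -/

lemma sidon_diff {G : Type*} [AddCommGroup G] [Fintype G] (A : Finset G) (hA : IsSidon A) :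
    A.card * A.card + 1 ≤ Fintype.card G + A.card := by
  classical
  have h1 : A.offDiag.card ≤ (Finset.univ.erase (0:G)).card := by
    apply Finset.card_le_card_of_injOn (fun p => p.1 - p.2)
    · intro p hp
      have hp' := Finset.mem_offDiag.1 hp
      simp only [Finset.coe_erase, Finset.coe_univ, Set.mem_sdiff, Set.mem_univ, true_and,
        Set.mem_singleton_iff]
      exact sub_ne_zero.2 hp'.2.2
    · intro p hp p' hp' h
      have hp := Finset.mem_offDiag.1 hp
      have hp' := Finset.mem_offDiag.1 hp'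
      have h2 : p.1 + p'.2 = p'.1 + p.2 := by
        have h3 : p.1 - p.2 = p'.1 - p'.2 := h
        rw [sub_eq_sub_iff_add_eq_add] at h3
        exact h3
      rcases hA p.1 hp.1 p'.2 hp'.2.1 p'.1 hp'.1 p.2 hp.2.1 h2 with h4 | h4
      · exact Prod.ext h4.1 h4.2.symm
      · exact absurd h4.1 hp.2.2
  rw [Finset.offDiag_card, Finset.card_erase_of_mem (Finset.mem_univ _), Finset.card_univ] at h1
  have h5 : 1 ≤ Fintype.card G := Fintype.card_pos
  have h6 : A.card ≤ A.card * A.card := Nat.le_mul_self _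
  omega

lemma sidon_tors {G : Type*} [AddCommGroup G] [Fintype G] (A : Finset G) (hA : IsSidon A) :
    A.card * Nat.card {g : G // 2 • g = 0} ≤ Fintype.card G := by
  classical
  rw [Nat.card_eq_fintype_card]
  have h := Finset.card_le_card_of_injOn (s := A ×ˢ (Finset.univ : Finset {g : G // 2 • g = 0}))
    (t := (Finset.univ : Finset G)) (fun p => p.1 + p.2.1) (fun _ _ => Finset.mem_coe.2 (Finset.mem_univ _)) ?_
  · rw [Finset.card_product, Finset.card_univ, Finset.card_univ] at h
    exact h
  · intro p hp q hq hpq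
    have hp := (Finset.mem_product.1 hp).1
    have hq := (Finset.mem_product.1 hq).1
    have h1 : p.1 + p.2.1 = q.1 + q.2.1 := hpq
    have h2 : p.1 + p.1 = q.1 + q.1 := by
      have h3 : 2 • (p.1 + p.2.1) = 2 • (q.1 + q.2.1) := by rw [h1]
      rw [smul_add, smul_add, p.2.2, q.2.2, add_zero, add_zero, two_nsmul, two_nsmul] at h3
      exact h3
    have h4 : p.1 = q.1 := by
      rcases hA p.1 hp p.1 hp q.1 hq q.1 hq h2 with h5 | h5
      · exact h5.1
      · exact h5.1
    have h5 : p.2.1 = q.2.1 := by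
      rw [h4] at h1
      exact add_left_cancel h1
    exact Prod.ext h4 (Subtype.ext h5)

lemma card_le_U {G : Type*} [AddCommGroup G] [Fintype G] (A : Finset G) (hA : IsSidon A) :
    A.card ≤ U (Fintype.card G) := by
  rcases Nat.eq_zero_or_pos A.card with h | h
  · omega
  · rw [le_U_iff h Fintype.card_pos]
    exact sidon_diff A hA

lemma attains_iff {G : Type*} [AddCommGroup G] [Fintype G] :
    Attains G ↔ ∃ A : Finset G, IsSidon A ∧ A.card = U (Fintype.card G) := by
  classical
  unfold Attains sigma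
  constructor
  · intro h
    have hne : (Finset.univ.filter (fun A : Finset G => IsSidon A)).Nonempty := by
      refine ⟨∅, ?_⟩
      rw [Finset.mem_filter]
      refine ⟨Finset.mem_univ _, ?_⟩
      intro a ha
      exact absurd ha (Finset.notMem_empty a)
    obtain ⟨A, hA, hA2⟩ := Finset.exists_mem_eq_sup _ hne Finset.card
    refine ⟨A, (Finset.mem_filter.1 hA).2, ?_⟩
    rw [← hA2]
    convert h
  · rintro ⟨A, hA, hc⟩
    apply le_antisymm
    · apply Finset.sup_le
      intro B hB
      exact card_le_U B (Finset.mem_filter.1 hB).2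
    · rw [← hc]
      exact Finset.le_sup (f := Finset.card) (Finset.mem_filter.2 ⟨Finset.mem_univ _, hA⟩)


/-! ### the group `W(R)` -/

/-- pairs with the addition `(a,b)+(c,d)=(a+c,b+d+ac)` -/
@[ext] structure W (R : Type*) where
  x : R
  y : R

namespace W

variable {R : Type*} [CommRing R]

instance : Add (W R) := ⟨fun a b => ⟨a.x + b.x, a.y + b.y + a.x * b.x⟩⟩
instance : Zero (W R) := ⟨⟨0, 0⟩⟩
instance : Neg (W R) := ⟨fun a => ⟨-a.x, -a.y + a.x * a.x⟩⟩

lemma add_def (a b : W R) : a + b = ⟨a.x + b.x, a.y + b.y + a.x * b.x⟩ := rfl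
lemma zero_def : (0 : W R) = ⟨0, 0⟩ := rfl
lemma neg_def (a : W R) : -a = ⟨-a.x, -a.y + a.x * a.x⟩ := rfl

instance : AddCommGroup (W R) where
  add_assoc a b c := by simp only [add_def]; ext <;> simp only <;> ring
  zero_add a := by simp only [add_def, zero_def]; ext <;> simp only <;> ring
  add_zero a := by simp only [add_def, zero_def]; ext <;> simp only <;> ring
  neg_add_cancel a := by simp only [add_def, zero_def, neg_def]; ext <;> simp only <;> ring
  add_comm a b := by simp only [add_def]; ext <;> simp only <;> ring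
  nsmul := nsmulRec
  zsmul := zsmulRec

end W

section WF
variable {F : Type*} [Field F] [CharP F 2]

lemma W.two (a : W F) : 2 • a = ⟨0, a.x * a.x⟩ := by
  rw [two_nsmul, W.add_def, CharTwo.add_self_eq_zero, CharTwo.add_self_eq_zero, zero_add]

lemma W.four (a : W F) : 4 • a = 0 := by
  have : 4 • a = 2 • (2 • a) := by rw [smul_smul]; norm_num
  rw [this, W.two, W.two]
  ext <;> simp [W.zero_def]

lemma W.tors [Finite F] (a : W F) (ha : 2 • a = 0) : ∃ b : W F, a = 2 • b := by
  rw [W.two, W.zero_def, W.mk.injEq] at ha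
  have hx : a.x = 0 := by simpa using ha.2
  have hsurj : Function.Surjective (fun t : F => t * t) := by
    apply Finite.surjective_of_injective
    intro s t hst
    have h1 : s * s = t * t := hst
    have h2 : (s - t) * (s - t) = 0 := by
      have : (s - t) * (s - t) = s * s + t * t - (s * t + s * t) := by ring
      rw [this, h1, CharTwo.add_self_eq_zero, CharTwo.add_self_eq_zero, sub_zero]
    exact sub_eq_zero.1 (mul_self_eq_zero.1 h2)
  obtain ⟨t, ht⟩ := hsurj a.y
  refine ⟨⟨t, 0⟩, ?_⟩
  rw [W.two]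
  ext
  · exact hx
  · exact ht.symm

open Classical in
lemma W.sidon [Fintype F] : IsSidon (Finset.univ.image (fun a : F => (⟨a, 0⟩ : W F))) := by
  intro a ha b hb c hc d hd h
  obtain ⟨a, -, rfl⟩ := Finset.mem_image.1 ha
  obtain ⟨b, -, rfl⟩ := Finset.mem_image.1 hb
  obtain ⟨c, -, rfl⟩ := Finset.mem_image.1 hc
  obtain ⟨d, -, rfl⟩ := Finset.mem_image.1 hd
  simp only [W.add_def, W.mk.injEq, zero_add] at h
  obtain ⟨h1, h2⟩ := h
  have h3 : (a - c) * (a - d) = 0 := by
    have : (a - c) * (a - d) = a * a - a * (c + d) + c * d := by ring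
    rw [this, ← h1, ← h2]; ring
  rcases mul_eq_zero.1 h3 with h4 | h4
  · left
    have h5 : a = c := sub_eq_zero.1 h4
    subst h5
    exact ⟨rfl, by rw [add_left_cancel h1]⟩
  · right
    have h5 : a = d := sub_eq_zero.1 h4
    subst h5
    refine ⟨rfl, ?_⟩
    rw [add_comm c a] at h1
    rw [add_left_cancel h1]

end WF

/-! ### structure -/

lemma struct4 (G : Type*) [AddCommGroup G] [Finite G] (h4 : ∀ g : G, 4 • g = 0)
    (h2 : ∀ g : G, 2 • g = 0 → ∃ h : G, g = 2 • h) :
    ∃ r : ℕ, Nonempty (G ≃+ (Fin r → ZMod 4)) := by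
  classical
  obtain ⟨ι, _, n, hn, ⟨e⟩⟩ := AddCommGroup.equiv_directSum_zmod_of_finite' G
  have hn4 : ∀ i, n i = 4 := by
    intro i
    have hd : n i ∣ 4 := by
      have h := h4 (e.symm (DirectSum.of (fun i => ZMod (n i)) i 1))
      have h' := congrArg e h
      rw [map_nsmul, AddEquiv.apply_symm_apply, map_zero, ← map_nsmul] at h'
      have h'' : (4 • (1 : ZMod (n i))) = 0 :=
        DirectSum.of_injective (β := fun i => ZMod (n i)) i (h'.trans (map_zero _).symm)
      rw [nsmul_one] at h''
      exact (ZMod.natCast_eq_zero_iff 4 (n i)).1 (by exact_mod_cast h'')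
    have hle : n i ≤ 4 := Nat.le_of_dvd (by norm_num) hd
    have h1 := hn i
    have hne2 : n i ≠ 2 := by
      intro h22
      have hz : (2 • (1 : ZMod (n i))) = 0 := by
        rw [nsmul_one]
        exact_mod_cast (ZMod.natCast_eq_zero_iff 2 (n i)).2 (by rw [h22])
      have h := h2 (e.symm (DirectSum.of (fun i => ZMod (n i)) i 1)) (by
        rw [← map_nsmul, ← map_nsmul, hz, map_zero, map_zero])
      obtain ⟨g, hg⟩ := h
      have h' := congrArg e hg
      rw [AddEquiv.apply_symm_apply, map_nsmul] at h'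
      have h'' := congrArg (fun f => f i) h'
      simp only [DirectSum.of_eq_same] at h''
      have h3 : (2 • e g : DirectSum ι fun i => ZMod (n i)) i = 2 • ((e g) i) := rfl
      rw [h3] at h''
      have h5 : (2 : ℕ) • ((e g) i) = (2 • (1 : ZMod (n i))) * ((e g) i) := by
        rw [smul_mul_assoc, one_mul]
      rw [h5, hz, zero_mul] at h''
      have : Fact (1 < n i) := ⟨h1⟩
      exact one_ne_zero h''
    have hne3 : n i ≠ 3 := by
      intro h33
      rw [h33] at hd
      omega
    omega
  have e2 : (DirectSum ι fun i => ZMod (n i)) ≃+ (ι → ZMod 4) := by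
    have : (fun i => ZMod (n i)) = fun i => ZMod 4 := by
      funext i; rw [hn4 i]
    refine (DirectSum.addEquivProd (fun i => ZMod (n i))).trans ?_
    refine AddEquiv.piCongrRight (fun i => (ZMod.ringEquivCongr (hn4 i)).toAddEquiv)
  refine ⟨Fintype.card ι, ⟨(e.trans e2).trans ?_⟩⟩
  exact (LinearEquiv.funCongrLeft ℤ (ZMod 4) (Fintype.equivFin ι).symm).toAddEquiv


/-! ### values of `U` -/

lemma U_four (r : ℕ) : U (4 ^ r) = 2 ^ r := by
  have h1 : 1 ≤ 2 ^ r := Nat.one_le_two_pow
  have h4 : (4:ℕ) ^ r = 2 ^ r * 2 ^ r := by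
    rw [← mul_pow]; norm_num
  have h41 : 1 ≤ 4 ^ r := Nat.one_le_pow _ _ (by norm_num)
  apply le_antisymm
  · by_contra hc
    push Not at hc
    have h2 : 2 ^ r + 1 ≤ U (4 ^ r) := hc
    rw [le_U_iff (by omega) h41, h4] at h2
    nlinarith
  · rw [le_U_iff h1 h41, h4]
    omega

lemma U_two : U 2 = 1 := by
  apply le_antisymm
  · by_contra hc
    push Not at hc
    have h2 : 2 ≤ U 2 := hc
    rw [le_U_iff (by omega) (by omega)] at h2
    omega
  · rw [le_U_iff (by omega) (by omega)]
    norm_num

/-! ### transport -/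

lemma sidon_map {G H : Type*} [AddCommGroup G] [AddCommGroup H] (e : G ≃+ H) (A : Finset G)
    (hA : IsSidon A) : IsSidon (A.map e.toEquiv.toEmbedding) := by
  intro a ha b hb c hc d hd h
  obtain ⟨a', ha', rfl⟩ := Finset.mem_map.1 ha
  obtain ⟨b', hb', rfl⟩ := Finset.mem_map.1 hb
  obtain ⟨c', hc', rfl⟩ := Finset.mem_map.1 hc
  obtain ⟨d', hd', rfl⟩ := Finset.mem_map.1 hd
  have h' : e a' + e b' = e c' + e d' := h
  rw [← map_add, ← map_add] at h'
  rcases hA a' ha' b' hb' c' hc' d' hd' (e.injective h') with ⟨h1, h2⟩ | ⟨h1, h2⟩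
  · left; rw [h1, h2]; exact ⟨rfl, rfl⟩
  · right; rw [h1, h2]; exact ⟨rfl, rfl⟩

lemma sidon_singleton {G : Type*} [AddCommGroup G] (g : G) : IsSidon ({g} : Finset G) := by
  intro a ha b hb c hc d hd _
  rw [Finset.mem_singleton] at ha hb hc hd
  left
  exact ⟨by rw [ha, hc], by rw [hb, hd]⟩

def W.equivProd (R : Type*) : W R ≃ R × R where
  toFun a := (a.x, a.y)
  invFun p := ⟨p.1, p.2⟩
  left_inv _ := rfl
  right_inv _ := rfl

/-- `(ZMod 4)^r` has a Sidon set of size `2^r` -/
lemma exists_four (r : ℕ) : ∃ A : Finset (Fin r → ZMod 4), IsSidon A ∧ A.card = 2 ^ r := by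
  classical
  rcases Nat.eq_zero_or_pos r with h0 | h0
  · subst h0
    exact ⟨{0}, sidon_singleton 0, by simp⟩
  · let F := GaloisField 2 r
    haveI : Fintype F := Fintype.ofFinite F
    have hF : Nat.card F = 2 ^ r := GaloisField.card 2 r h0.ne'
    haveI : Finite (W F) := Finite.of_equiv _ (W.equivProd F).symm
    obtain ⟨r', ⟨e⟩⟩ := struct4 (W F) W.four (fun g hg => W.tors g hg)
    have hc : Nat.card (W F) = Nat.card (Fin r' → ZMod 4) := Nat.card_congr e.toEquiv
    rw [Nat.card_congr (W.equivProd F), Nat.card_prod, hF, Nat.card_eq_fintype_card,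
      Fintype.card_fun, ZMod.card, Fintype.card_fin] at hc
    have hr : r' = r := by
      have h4 : (4:ℕ) ^ r = 4 ^ r' := by rw [← hc, ← mul_pow]; norm_num
      exact (Nat.pow_right_injective (le_refl _ |>.trans (by norm_num : 2 ≤ 4)) h4).symm
    subst hr
    refine ⟨_, sidon_map e _ W.sidon, ?_⟩
    rw [Finset.card_map, Finset.card_image_of_injective, Finset.card_univ,
      ← Nat.card_eq_fintype_card, hF]
    intro a b hab
    exact (W.mk.injEq _ _ _ _ ▸ hab : _ ∧ _).1

/-! ### the main theorem -/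

lemma attains_of_four {G : Type*} [AddCommGroup G] [Fintype G] (r : ℕ)
    (e : G ≃+ (Fin r → ZMod 4)) : Attains G := by
  obtain ⟨A, hA, hc⟩ := exists_four r
  rw [attains_iff]
  refine ⟨_, sidon_map e.symm A hA, ?_⟩
  rw [Finset.card_map, hc, Fintype.card_congr e.toEquiv, Fintype.card_fun, ZMod.card,
    Fintype.card_fin, U_four]

lemma attains_of_two {G : Type*} [AddCommGroup G] [Fintype G] (e : G ≃+ ZMod 2) : Attains G := by
  rw [attains_iff]
  refine ⟨{0}, sidon_singleton 0, ?_⟩
  rw [Finset.card_singleton, Fintype.card_congr e.toEquiv, ZMod.card, U_two]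

lemma necessary {G : Type*} [AddCommGroup G] [Fintype G] (h : Attains G) :
    U (Fintype.card G) * Nat.card {g : G // 2 • g = 0} ≤ Fintype.card G := by
  obtain ⟨A, hA, hc⟩ := attains_iff.1 h
  rw [← hc]
  exact sidon_tors A hA

lemma forward {G : Type*} [AddCommGroup G] [Fintype G] (h4 : ∀ g : G, 4 • g = 0)
    (h : Attains G) :
    (∃ r : ℕ, Nonempty (G ≃+ (Fin r → ZMod 4))) ∨ Nonempty (G ≃+ ZMod 2) := by
  classical
  have hnec := necessary h
  let f : G →+ G := nsmulAddMonoidHom 2
  have hf : ∀ g, f g = 2 • g := fun _ => rfl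
  have hker : Nat.card {g : G // 2 • g = 0} = Nat.card f.ker :=
    Nat.card_congr (Equiv.subtypeEquivRight (fun g => by rw [AddMonoidHom.mem_ker, hf]))
  have hle : f.range ≤ f.ker := by
    rintro _ ⟨g, rfl⟩
    rw [AddMonoidHom.mem_ker, hf, hf, smul_smul]
    exact h4 g
  have hn : Nat.card G = Nat.card f.range * Nat.card f.ker := by
    rw [AddSubgroup.card_eq_card_quotient_mul_card_addSubgroup f.ker,
      Nat.card_congr (QuotientAddGroup.quotientKerEquivRange f).toEquiv]
  obtain ⟨k, hk⟩ := AddSubgroup.card_dvd_of_le hle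
  rw [hker] at hnec
  have hG : Fintype.card G = Nat.card G := Nat.card_eq_fintype_card.symm
  rw [hG] at hnec
  have hs : 0 < Nat.card f.ker := Nat.card_pos
  have hw : 0 < Nat.card f.range := Nat.card_pos
  have hU : U (Nat.card G) ≤ Nat.card f.range := by
    rw [hn] at hnec ⊢
    exact Nat.le_of_mul_le_mul_right hnec hs
  have hGpos : 1 ≤ Nat.card G := Nat.card_pos
  rcases Nat.lt_or_ge k 2 with hk2 | hk2
  · left
    have hk1 : k = 1 := by
      rcases Nat.eq_zero_or_pos k with h0 | h0
      · rw [h0, mul_zero] at hk; omega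
      · omega
    rw [hk1, mul_one] at hk
    have heq : f.range = f.ker := AddSubgroup.eq_of_le_of_card_ge hle hk.le
    apply struct4 G h4
    intro g hg
    have hg' : g ∈ f.range := by
      rw [heq, AddMonoidHom.mem_ker, hf]; exact hg
    obtain ⟨x, hx⟩ := hg'
    exact ⟨x, by rw [← hx, hf]⟩
  · right
    set w := Nat.card f.range with hwdef
    have hlt : ¬ (w + 1 ≤ U (Nat.card G)) := by omega
    rw [le_U_iff (by omega) hGpos] at hlt
    push Not at hlt
    have hn2 : Nat.card G = w * (w * k) := by rw [hn, hk]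
    have hw1 : w = 1 := by
      by_contra hne
      have hw2 : 2 ≤ w := by omega
      have : w * (w * 2) ≤ w * (w * k) := Nat.mul_le_mul_left _ (Nat.mul_le_mul_left _ hk2)
      nlinarith
    rw [hw1] at hn2 hlt
    have hcard : Nat.card G = 2 := by
      rw [one_mul, one_mul] at hn2
      omega
    haveI : Fact (Nat.Prime 2) := ⟨Nat.prime_two⟩
    haveI : IsAddCyclic G := isAddCyclic_of_prime_card hcard
    have e := zmodAddCyclicAddEquiv (inferInstance : IsAddCyclic G)
    rw [hcard] at e
    exact ⟨e.symm⟩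


/-! ### Ganley type argument -/

lemma two_inj {G : Type*} [AddCommGroup G] {A : Finset G} (hA : IsSidon A) {a b : G}
    (ha : a ∈ A) (hb : b ∈ A) (h : 2 • a = 2 • b) : a = b := by
  rw [two_nsmul, two_nsmul] at h
  rcases hA a ha a ha b hb b hb h with h | h
  · exact h.1
  · exact h.1

lemma ganley {G : Type*} [AddCommGroup G] [Fintype G] (f : G →+ G) (hf : ∀ g, f g = 2 • g)
    (A : Finset G) (hA : IsSidon A) (w : ℕ) (hw : A.card = w) (hwe : Even w)
    (hker : Nat.card f.ker = w) (hran : Nat.card f.range = w) (hG : Nat.card G = w * w) :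
    ∀ g : G, 4 • g = 0 := by
  classical
  have hwpos : 0 < w := by rw [← hker]; exact Nat.card_pos
  have F1 : ∀ a ∈ A, ∀ b ∈ A, a - b ∈ f.ker → a = b := by
    intro a ha b hb h
    rw [AddMonoidHom.mem_ker, map_sub, hf, hf] at h
    exact two_inj hA ha hb (sub_eq_zero.1 h)
  -- F2: every element outside the kernel is a difference
  have F2 : ∀ g : G, g ∉ f.ker → ∃ a ∈ A, ∃ b ∈ A, a - b = g := by
    have hsub : A.offDiag.image (fun p => p.1 - p.2) ⊆ Finset.univ.filter (fun g => g ∉ f.ker) := by
      intro g hg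
      obtain ⟨p, hp, rfl⟩ := Finset.mem_image.1 hg
      have hp := Finset.mem_offDiag.1 hp
      rw [Finset.mem_filter]
      exact ⟨Finset.mem_univ _, fun h => hp.2.2 (F1 _ hp.1 _ hp.2.1 h)⟩
    have hinj : Set.InjOn (fun p : G × G => p.1 - p.2) A.offDiag := by
      intro p hp p' hp' h
      have hp := Finset.mem_offDiag.1 hp
      have hp' := Finset.mem_offDiag.1 hp'
      have h2 : p.1 + p'.2 = p'.1 + p.2 := by
        have h3 : p.1 - p.2 = p'.1 - p'.2 := h
        rw [sub_eq_sub_iff_add_eq_add] at h3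
        exact h3
      rcases hA p.1 hp.1 p'.2 hp'.2.1 p'.1 hp'.1 p.2 hp.2.1 h2 with h4 | h4
      · exact Prod.ext h4.1 h4.2.symm
      · exact absurd h4.1 hp.2.2
    have hc1 : (A.offDiag.image (fun p => p.1 - p.2)).card = w * w - w := by
      rw [Finset.card_image_of_injOn hinj, Finset.offDiag_card, hw]
    have hc2 : (Finset.univ.filter (fun g => g ∉ f.ker)).card = w * w - w := by
      have h1 := Finset.card_filter_add_card_filter_not (s := (Finset.univ : Finset G))
        (fun g => g ∈ f.ker)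
      have h2 : (Finset.univ.filter (fun g => g ∈ f.ker)).card = w := by
        rw [← hker, Nat.card_eq_fintype_card, Fintype.card_subtype]
      rw [h2, Finset.card_univ, ← Nat.card_eq_fintype_card, hG] at h1
      omega
    have heq := Finset.eq_of_subset_of_card_le hsub (by rw [hc1, hc2])
    intro g hg
    have : g ∈ A.offDiag.image (fun p => p.1 - p.2) := by
      rw [heq, Finset.mem_filter]; exact ⟨Finset.mem_univ _, hg⟩
    obtain ⟨p, hp, hpg⟩ := Finset.mem_image.1 this
    have hp := Finset.mem_offDiag.1 hp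
    exact ⟨p.1, hp.1, p.2, hp.2.1, hpg⟩
  have hquot : Nat.card (G ⧸ f.ker) = w := by
    have h := AddSubgroup.card_eq_card_quotient_mul_card_addSubgroup f.ker
    rw [hG, hker] at h
    exact (Nat.eq_of_mul_eq_mul_right hwpos h).symm
  have hquot' : Nat.card (G ⧸ f.range) = w := by
    have h := AddSubgroup.card_eq_card_quotient_mul_card_addSubgroup f.range
    rw [hG, hran] at h
    exact (Nat.eq_of_mul_eq_mul_right hwpos h).symm
  -- F3
  have F3 : ∀ g : G, ∃ a ∈ A, g - a ∈ f.ker := by
    have hbij : Function.Bijective (fun a : A => (QuotientAddGroup.mk (a : G) : G ⧸ f.ker)) := by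
      rw [Nat.bijective_iff_injective_and_card]
      refine ⟨?_, ?_⟩
      · intro a b hab
        have h := QuotientAddGroup.eq.1 hab
        have h' : (b : G) - a ∈ f.ker := by
          have : (b : G) - a = -(a:G) + b := by abel
          rw [this]; exact h
        exact (Subtype.ext (F1 _ b.2 _ a.2 h')).symm
      · rw [hquot, Nat.card_eq_fintype_card, Fintype.card_coe, hw]
    intro g
    obtain ⟨a, ha⟩ := hbij.2 (QuotientAddGroup.mk g)
    have h := QuotientAddGroup.eq.1 ha
    refine ⟨a, a.2, ?_⟩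
    have : g - a = -(a:G) + g := by abel
    rw [this]; exact h
  -- parity
  have key : ∀ g : G, ∃ c ∈ A, g + c ∈ f.range := by
    intro g
    obtain ⟨a0, ha0, hga0⟩ := F3 g
    set T : Finset (G × G × G) := (A ×ˢ (A ×ˢ A)).filter (fun p => p.1 + p.2.1 = g + p.2.2) with hT
    have hTcard : T.card = ∑ a ∈ A, ((A ×ˢ A).filter (fun p => a + p.1 = g + p.2)).card := by
      rw [hT, Finset.card_filter, Finset.sum_product]
      apply Finset.sum_congr rfl
      intro a _
      rw [Finset.card_filter]
    have hN : ∀ a ∈ A.erase a0, ((A ×ˢ A).filter (fun p => a + p.1 = g + p.2)).card = 1 := by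
      intro a ha
      have haA := Finset.mem_of_mem_erase ha
      have hne := Finset.ne_of_mem_erase ha
      have hnk : g - a ∉ f.ker := by
        intro hk
        apply hne
        apply F1 a haA a0 ha0
        have : a - a0 = (g - a0) - (g - a) := by abel
        rw [this]
        exact f.ker.sub_mem hga0 hk
      obtain ⟨b, hb, c, hc, hbc⟩ := F2 _ hnk
      rw [Finset.card_eq_one]
      refine ⟨(b, c), ?_⟩
      ext p
      rw [Finset.mem_filter, Finset.mem_product, Finset.mem_singleton]
      constructor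
      · rintro ⟨⟨h1, h2⟩, h3⟩
        have h4 : p.1 - p.2 = b - c := by
          rw [hbc]
          have : p.1 - p.2 = (a + p.1) - p.2 - a := by abel
          rw [this, h3]; abel
        have h5 : p.1 + c = b + p.2 := by
          rw [sub_eq_sub_iff_add_eq_add] at h4
          exact h4
        rcases hA p.1 h1 c hc b hb p.2 h2 h5 with h6 | h6
        · exact Prod.ext h6.1 h6.2.symm
        · exfalso
          apply hnk
          rw [← hbc, ← h6.2, sub_self]
          exact f.ker.zero_mem
      · rintro rfl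
        refine ⟨⟨hb, hc⟩, ?_⟩
        have : a + b = a + (b - c) + c := by abel
        show a + b = g + c
        rw [this, hbc]; abel
    have hN0 : Even ((A ×ˢ A).filter (fun p => a0 + p.1 = g + p.2)).card := by
      by_cases hg : a0 = g
      · have : (A ×ˢ A).filter (fun p => a0 + p.1 = g + p.2) = A.image (fun a => (a, a)) := by
          ext p
          rw [Finset.mem_filter, Finset.mem_product, Finset.mem_image, hg]
          constructor
          · rintro ⟨⟨h1, _⟩, h3⟩
            exact ⟨p.1, h1, Prod.ext rfl (add_left_cancel h3)⟩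
          · rintro ⟨a, ha, rfl⟩
            exact ⟨⟨ha, ha⟩, rfl⟩
        rw [this, Finset.card_image_of_injective _ (fun a b h => (Prod.mk.inj h).1), hw]
        exact hwe
      · have : (A ×ˢ A).filter (fun p => a0 + p.1 = g + p.2) = ∅ := by
          rw [Finset.filter_eq_empty_iff]
          intro p hp h3
          rw [Finset.mem_product] at hp
          have h4 : p.1 - p.2 = g - a0 := by
            have : p.1 - p.2 = (a0 + p.1) - p.2 - a0 := by abel
            rw [this, h3]; abel
          have h5 := F1 _ hp.1 _ hp.2 (by rw [h4]; exact hga0)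
          rw [h5, sub_self] at h4
          exact hg (sub_eq_zero.1 h4.symm).symm
        rw [this]; simp
    have hTodd : ¬ Even T.card := by
      rw [hTcard, ← Finset.add_sum_erase _ _ ha0, Finset.sum_congr rfl hN, Finset.sum_const,
        Finset.card_erase_of_mem ha0, hw, smul_eq_mul, mul_one]
      rw [Nat.even_add]
      intro h
      have h1 := h.1 hN0
      obtain ⟨u, hu⟩ := hwe
      obtain ⟨v, hv⟩ := h1
      omega
    have hTsplit := Finset.card_filter_add_card_filter_not (s := T) (fun p => p.1 = p.2.1)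
    have hTne : Even (T.filter (fun p => ¬ p.1 = p.2.1)).card := by
      have hsum : ∑ _x ∈ T.filter (fun p => ¬ p.1 = p.2.1), (1 : ZMod 2) = 0 := by
        apply Finset.sum_involution (fun p _ => (p.2.1, p.1, p.2.2))
        · intro a _; decide
        · intro p hp _ h
          rw [Finset.mem_filter] at hp
          exact hp.2 (congrArg Prod.fst h).symm
        · intro p hp; rfl
        · intro p hp
          rw [Finset.mem_filter, hT, Finset.mem_filter, Finset.mem_product, Finset.mem_product] at hp ⊢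
          obtain ⟨⟨⟨h1, h2, h3⟩, h4⟩, h5⟩ := hp
          exact ⟨⟨⟨h2, h1, h3⟩, by rw [add_comm]; exact h4⟩, fun h => h5 h.symm⟩
      rw [Finset.sum_const, nsmul_one] at hsum
      exact (ZMod.natCast_eq_zero_iff_even).1 hsum
    have hTeq : (T.filter (fun p => p.1 = p.2.1)).Nonempty := by
      rw [Finset.nonempty_iff_ne_empty]
      intro he
      apply hTodd
      rw [← hTsplit, he, Finset.card_empty, zero_add]
      exact hTne
    obtain ⟨p, hp⟩ := hTeq
    rw [Finset.mem_filter, hT, Finset.mem_filter, Finset.mem_product, Finset.mem_product] at hp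
    obtain ⟨⟨⟨h1, h2, h3⟩, h4⟩, h5⟩ := hp
    refine ⟨p.2.2, h3, ?_⟩
    rw [← h4, ← h5]
    exact ⟨p.1, by rw [hf, two_nsmul]⟩
  -- A is a transversal of the range
  have hinj2 : ∀ a ∈ A, ∀ b ∈ A, a - b ∈ f.range → a = b := by
    have hbij : Function.Bijective (fun a : A => (QuotientAddGroup.mk (a : G) : G ⧸ f.range)) := by
      rw [Nat.bijective_iff_surjective_and_card]
      refine ⟨?_, ?_⟩
      · intro q
        obtain ⟨g, rfl⟩ := QuotientAddGroup.mk_surjective q
        obtain ⟨c, hc, hgc⟩ := key (-g)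
        refine ⟨⟨c, hc⟩, ?_⟩
        rw [QuotientAddGroup.eq]
        have : -c + g = -(-g + c) := by abel
        show -c + g ∈ f.range
        rw [this]
        exact f.range.neg_mem hgc
      · rw [hquot', Nat.card_eq_fintype_card, Fintype.card_coe, hw]
    intro a ha b hb hab
    have h : (QuotientAddGroup.mk (b : G) : G ⧸ f.range) = QuotientAddGroup.mk (a : G) := by
      rw [QuotientAddGroup.eq]
      have : -b + a = a - b := by abel
      rw [this]; exact hab
    have h' := hbij.1 (a₁ := ⟨b, hb⟩) (a₂ := ⟨a, ha⟩) h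
    exact (congrArg Subtype.val h').symm
  intro g
  have hgr : f g ∈ f.ker := by
    by_contra hn
    obtain ⟨a, ha, b, hb, hab⟩ := F2 _ hn
    have h := hinj2 a ha b hb (by rw [hab]; exact ⟨g, rfl⟩)
    rw [h, sub_self] at hab
    apply hn
    rw [← hab]
    exact f.ker.zero_mem
  rw [AddMonoidHom.mem_ker, hf, hf, smul_smul] at hgr
  exact hgr


/-! ### prime exponent -/

lemma structp (p : ℕ) (hp : p.Prime) (G : Type*) [AddCommGroup G] [Finite G]
    (h2 : ∀ g : G, p • g = 0) : ∃ r : ℕ, Nonempty (G ≃+ (Fin r → ZMod p)) := by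
  classical
  obtain ⟨ι, _, n, hn, ⟨e⟩⟩ := AddCommGroup.equiv_directSum_zmod_of_finite' G
  have hn2 : ∀ i, n i = p := by
    intro i
    have hd : n i ∣ p := by
      have h := h2 (e.symm (DirectSum.of (fun i => ZMod (n i)) i 1))
      have h' := congrArg e h
      rw [map_nsmul, AddEquiv.apply_symm_apply, map_zero, ← map_nsmul] at h'
      have h'' : (p • (1 : ZMod (n i))) = 0 :=
        DirectSum.of_injective (β := fun i => ZMod (n i)) i (h'.trans (map_zero _).symm)
      rw [nsmul_one] at h''
      exact (ZMod.natCast_eq_zero_iff p (n i)).1 h''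
    have h1 := hn i
    rcases (Nat.dvd_prime hp).1 hd with h | h
    · omega
    · exact h
  have e2 : (DirectSum ι fun i => ZMod (n i)) ≃+ (ι → ZMod p) := by
    refine (DirectSum.addEquivProd (fun i => ZMod (n i))).trans ?_
    refine AddEquiv.piCongrRight (fun i => (ZMod.ringEquivCongr (hn2 i)).toAddEquiv)
  refine ⟨Fintype.card ι, ⟨(e.trans e2).trans ?_⟩⟩
  exact (LinearEquiv.funCongrLeft ℤ (ZMod p) (Fintype.equivFin ι).symm).toAddEquiv

lemma U_mul (w : ℕ) (hw : 1 ≤ w) : U (w * (w + 1)) = w := by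
  have hn : 1 ≤ w * (w + 1) := Nat.mul_pos hw (by omega)
  apply le_antisymm
  · by_contra hc
    push Not at hc
    have h2 : w + 1 ≤ U (w * (w + 1)) := hc
    rw [le_U_iff (by omega) hn] at h2
    nlinarith
  · rw [le_U_iff hw hn]
    nlinarith

lemma U_sq (w : ℕ) (hw : 1 ≤ w) : U (w * w) = w := by
  have hn : 1 ≤ w * w := Nat.mul_pos hw hw
  apply le_antisymm
  · by_contra hc
    push Not at hc
    have h2 : w + 1 ≤ U (w * w) := hc
    rw [le_U_iff (by omega) hn] at h2
    nlinarith
  · rw [le_U_iff hw hn]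
    omega

/-- `(ZMod p)^t × ZMod (p^t-1)` has a Sidon set of size `p^t-1` -/
lemma exists_spence (p t : ℕ) (hp : p.Prime) (ht : 1 ≤ t) :
    ∃ A : Finset ((Fin t → ZMod p) × ZMod (p ^ t - 1)), IsSidon A ∧ A.card = p ^ t - 1 := by
  classical
  haveI : Fact p.Prime := ⟨hp⟩
  let F := GaloisField p t
  haveI : Fintype F := Fintype.ofFinite F
  have hF : Nat.card F = p ^ t := GaloisField.card p t (by omega)
  obtain ⟨t', ⟨e1⟩⟩ := structp p hp F (fun g => by
    rw [nsmul_eq_mul, CharP.cast_eq_zero, zero_mul])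
  have hc : Nat.card F = Nat.card (Fin t' → ZMod p) := Nat.card_congr e1.toEquiv
  rw [hF, Nat.card_eq_fintype_card, Fintype.card_fun, ZMod.card, Fintype.card_fin] at hc
  have hr : t' = t := (Nat.pow_right_injective hp.two_le hc).symm
  subst hr
  have hU : Nat.card (Additive Fˣ) = p ^ t' - 1 := by
    have h1 : Nat.card (Additive Fˣ) = Nat.card Fˣ := Nat.card_congr Additive.toMul
    rw [h1, Nat.card_units, hF]
  have e2 : ZMod (Nat.card (Additive Fˣ)) ≃+ Additive Fˣ :=
    zmodAddCyclicAddEquiv (inferInstance : IsAddCyclic (Additive Fˣ))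
  rw [hU] at e2
  let e : (F × Additive Fˣ) ≃+ ((Fin t' → ZMod p) × ZMod (p ^ t' - 1)) := e1.prodCongr e2.symm
  have hS : IsSidon (Finset.univ.image (fun x : Fˣ => ((x : F), Additive.ofMul x))) := by
    intro a ha b hb c hc d hd h
    obtain ⟨a, -, rfl⟩ := Finset.mem_image.1 ha
    obtain ⟨b, -, rfl⟩ := Finset.mem_image.1 hb
    obtain ⟨c, -, rfl⟩ := Finset.mem_image.1 hc
    obtain ⟨d, -, rfl⟩ := Finset.mem_image.1 hd
    have h1 : (a : F) + b = c + d := congrArg Prod.fst h
    have h2' : Additive.ofMul a + Additive.ofMul b = Additive.ofMul c + Additive.ofMul d :=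
      congrArg Prod.snd h
    have h2 : (a : F) * b = c * d := by
      have h3 : a * b = c * d := by
        rw [← ofMul_mul, ← ofMul_mul] at h2'
        exact Additive.ofMul.injective h2'
      have h4 := congrArg (Units.val) h3
      rw [Units.val_mul, Units.val_mul] at h4
      exact h4
    have h3 : ((a : F) - c) * (a - d) = 0 := by
      have : ((a : F) - c) * (a - d) = a * a - a * (c + d) + c * d := by ring
      rw [this, ← h1, ← h2]; ring
    rcases mul_eq_zero.1 h3 with h4 | h4
    · left
      have h5 : (a : F) = c := sub_eq_zero.1 h4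
      have h6 : a = c := Units.ext h5
      subst h6
      have h7 : b = d := Units.ext (add_left_cancel h1)
      subst h7
      exact ⟨rfl, rfl⟩
    · right
      have h5 : (a : F) = d := sub_eq_zero.1 h4
      have h6 : a = d := Units.ext h5
      subst h6
      rw [add_comm (c : F) a] at h1
      have h7 : b = c := Units.ext (add_left_cancel h1)
      subst h7
      exact ⟨rfl, rfl⟩
  refine ⟨_, sidon_map e _ hS, ?_⟩
  rw [Finset.card_map, Finset.card_image_of_injective, Finset.card_univ,
    ← Nat.card_eq_fintype_card, Nat.card_units, hF]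
  intro a b hab
  exact Units.ext (congrArg Prod.fst hab)

lemma attains_spence {G : Type*} [AddCommGroup G] [Fintype G] (p t : ℕ) (hp : p.Prime)
    (ht : 1 ≤ t) (e : G ≃+ (Fin t → ZMod p) × ZMod (p ^ t - 1)) : Attains G := by
  obtain ⟨A, hA, hc⟩ := exists_spence p t hp ht
  rw [attains_iff]
  refine ⟨_, sidon_map e.symm A hA, ?_⟩
  have h2 : 2 ≤ p ^ t := by
    calc 2 ≤ p := hp.two_le
      _ = p ^ 1 := (pow_one p).symm
      _ ≤ p ^ t := Nat.pow_le_pow_right hp.pos ht
  haveI : NeZero (p ^ t - 1) := ⟨by omega⟩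
  haveI : Fact p.Prime := ⟨hp⟩
  have hcard : Fintype.card G = (p ^ t - 1) * ((p ^ t - 1) + 1) := by
    rw [Fintype.card_congr e.toEquiv, Fintype.card_prod, Fintype.card_fun, ZMod.card, ZMod.card,
      Fintype.card_fin, mul_comm]
    congr 1
    omega
  rw [Finset.card_map, hc, hcard, U_mul _ (by omega)]

/-! ### assembly -/

lemma even_of_ker {G : Type*} [AddCommGroup G] [Fintype G] (f : G →+ G) (hf : ∀ g, f g = 2 • g)
    (h : 1 < Nat.card f.ker) : Even (Nat.card f.ker) := by
  haveI : Nontrivial f.ker := Finite.one_lt_card_iff_nontrivial.1 h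
  obtain ⟨x, hx⟩ := exists_ne (0 : f.ker)
  haveI : Fact (Nat.Prime 2) := ⟨Nat.prime_two⟩
  have h2 : addOrderOf x = 2 := by
    apply addOrderOf_eq_prime _ hx
    apply Subtype.ext
    have := x.2
    rw [AddMonoidHom.mem_ker, hf] at this
    rw [AddSubgroup.coe_nsmul, this]; rfl
  have := addOrderOf_dvd_natCard x
  rw [h2] at this
  exact even_iff_two_dvd.2 this

lemma forward_large {G : Type} [AddCommGroup G] [Fintype G] (h : Attains G)
    (hlarge : Fintype.card G ≤ Nat.card {g : G // 2 • g = 0} ^ 2) :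
    (∃ r : ℕ, Nonempty (G ≃+ (Fin r → ZMod 4))) ∨
      ∃ t : ℕ, 1 ≤ t ∧ ∃ (H : Type) (_ : AddCommGroup H), Nat.card H = 2 ^ t - 1 ∧
        Nonempty (G ≃+ (Fin t → ZMod 2) × H) := by
  classical
  have hnec := necessary h
  let f : G →+ G := nsmulAddMonoidHom 2
  have hf : ∀ g, f g = 2 • g := fun _ => rfl
  have hker : Nat.card {g : G // 2 • g = 0} = Nat.card f.ker :=
    Nat.card_congr (Equiv.subtypeEquivRight (fun g => by rw [AddMonoidHom.mem_ker, hf]))
  have hn : Nat.card G = Nat.card f.range * Nat.card f.ker := by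
    rw [AddSubgroup.card_eq_card_quotient_mul_card_addSubgroup f.ker,
      Nat.card_congr (QuotientAddGroup.quotientKerEquivRange f).toEquiv]
  rw [hker] at hnec hlarge
  have hG : Fintype.card G = Nat.card G := Nat.card_eq_fintype_card.symm
  rw [hG] at hnec hlarge
  obtain ⟨A, hA, hAc⟩ := attains_iff.1 h
  rw [hG] at hAc
  have hs : 0 < Nat.card f.ker := Nat.card_pos
  have hw : 0 < Nat.card f.range := Nat.card_pos
  have hU : U (Nat.card G) ≤ Nat.card f.range := by
    rw [hn] at hnec ⊢
    exact Nat.le_of_mul_le_mul_right hnec hs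
  have hGpos : 1 ≤ Nat.card G := Nat.card_pos
  have hws : Nat.card f.range ≤ Nat.card f.ker := by
    rw [hn, pow_two] at hlarge
    exact Nat.le_of_mul_le_mul_right hlarge hs
  have hlt : ¬ (Nat.card f.range + 1 ≤ U (Nat.card G)) := by omega
  rw [le_U_iff (by omega) hGpos] at hlt
  push Not at hlt
  have hs2 : Nat.card f.ker ≤ Nat.card f.range + 1 := by
    by_contra hc
    push Not at hc
    have : Nat.card f.range * (Nat.card f.range + 2) ≤ Nat.card G := by
      rw [hn]; exact Nat.mul_le_mul_left _ hc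
    nlinarith
  rcases Nat.lt_or_ge (Nat.card f.range) (Nat.card f.ker) with hlt2 | hge
  · -- s = w + 1
    right
    have hsw : Nat.card f.ker = Nat.card f.range + 1 := by omega
    obtain ⟨t, ⟨e1⟩⟩ := structp 2 Nat.prime_two f.ker (fun x => Subtype.ext (by
      have := x.2
      rw [AddMonoidHom.mem_ker, hf] at this
      rw [AddSubgroup.coe_nsmul, this]; rfl))
    have hct : Nat.card f.ker = 2 ^ t := by
      rw [Nat.card_congr e1.toEquiv, Nat.card_eq_fintype_card, Fintype.card_fun, ZMod.card,
        Fintype.card_fin]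
    have ht : 1 ≤ t := by
      rcases Nat.eq_zero_or_pos t with h0 | h0
      · rw [h0, pow_zero] at hct; omega
      · exact h0
    refine ⟨t, ht, f.range, inferInstance, by omega, ?_⟩
    let φ : f.ker × f.range →+ G := AddMonoidHom.coprod f.ker.subtype f.range.subtype
    have hφ : Function.Injective φ := by
      rw [injective_iff_map_eq_zero]
      rintro ⟨x, y⟩ hxy
      have hxy' : (x : G) + y = 0 := hxy
      have hx2 : (x : G) ∈ f.range := by
        rw [eq_neg_of_add_eq_zero_left hxy']
        exact f.range.neg_mem y.2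
      have hx0 : (x : G) = 0 := by
        have o1 : addOrderOf (x : G) ∣ Nat.card f.ker := by
          have := addOrderOf_dvd_natCard x
          rwa [← AddSubgroup.addOrderOf_coe] at this
        have o2 : addOrderOf (x : G) ∣ Nat.card f.range := by
          have := addOrderOf_dvd_natCard (⟨(x : G), hx2⟩ : f.range)
          rwa [← AddSubgroup.addOrderOf_coe] at this
        have o3 : addOrderOf (x : G) ∣ 1 := by
          rw [hsw] at o1
          exact (Nat.dvd_add_right o2).1 o1
        exact AddMonoid.addOrderOf_eq_one_iff.1 (Nat.dvd_one.1 o3)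
      have hy0 : (y : G) = 0 := by rw [hx0, zero_add] at hxy'; exact hxy'
      exact Prod.ext (Subtype.ext hx0) (Subtype.ext hy0)
    have hbij : Function.Bijective φ := by
      rw [Nat.bijective_iff_injective_and_card]
      exact ⟨hφ, by rw [Nat.card_prod, hn, mul_comm]⟩
    exact ⟨(AddEquiv.ofBijective φ hbij).symm.trans (e1.prodCongr (AddEquiv.refl _))⟩
  · -- s = w
    left
    have hsw : Nat.card f.ker = Nat.card f.range := le_antisymm hge hws
    have hGw : Nat.card G = Nat.card f.range * Nat.card f.range := by rw [hn, hsw]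
    have hAw : A.card = Nat.card f.range := by rw [hAc, hGw, U_sq _ hw]
    have h4 : ∀ g : G, 4 • g = 0 := by
      rcases Nat.lt_or_ge 1 (Nat.card f.range) with h1 | h1
      · apply ganley f hf A hA (Nat.card f.range) hAw _ hsw rfl hGw
        rw [← hsw]
        exact even_of_ker f hf (by omega)
      · have h1' : Nat.card f.range = 1 := by omega
        rw [h1'] at hGw
        haveI : Subsingleton G := (Nat.card_eq_one_iff_unique.1 (by rw [hGw])).1
        intro g
        exact Subsingleton.elim _ _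
    have hle : f.range ≤ f.ker := by
      rintro _ ⟨g, rfl⟩
      rw [AddMonoidHom.mem_ker, hf, hf, smul_smul]
      exact h4 g
    have heq : f.range = f.ker := AddSubgroup.eq_of_le_of_card_ge hle hsw.le
    apply struct4 G h4
    intro g hg
    have hg' : g ∈ f.range := by
      rw [heq, AddMonoidHom.mem_ker, hf]; exact hg
    obtain ⟨x, hx⟩ := hg'
    exact ⟨x, by rw [← hx, hf]⟩

lemma two_group {G : Type} [AddCommGroup G] [Fintype G]
    (hlarge : Fintype.card G ≤ Nat.card {g : G // 2 • g = 0} ^ 2)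
    (hp : ∃ k : ℕ, Fintype.card G = 2 ^ k) :
    Attains G ↔ (∃ r : ℕ, Nonempty (G ≃+ (Fin r → ZMod 4))) ∨ Nonempty (G ≃+ ZMod 2) := by
  constructor
  · intro h
    rcases forward_large h hlarge with h1 | ⟨t, ht, H, _, hH, ⟨e⟩⟩
    · exact Or.inl h1
    · right
      obtain ⟨k, hk⟩ := hp
      have h2 : 2 ≤ 2 ^ t := by
        calc 2 = 2 ^ 1 := rfl
          _ ≤ 2 ^ t := Nat.pow_le_pow_right (by norm_num) ht
      have hcard : Nat.card G = 2 ^ t * (2 ^ t - 1) := by
        rw [Nat.card_congr e.toEquiv, Nat.card_prod, hH, Nat.card_eq_fintype_card,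
          Fintype.card_fun, ZMod.card, Fintype.card_fin]
      have hd : (2 ^ t - 1) ∣ 2 ^ k := by
        rw [← hk, ← Nat.card_eq_fintype_card, hcard]
        exact Dvd.intro_left _ rfl
      obtain ⟨j, _, hj⟩ := (Nat.dvd_prime_pow Nat.prime_two).1 hd
      have hj0 : j = 0 := by
        by_contra hne
        obtain ⟨j', rfl⟩ := Nat.exists_eq_succ_of_ne_zero hne
        obtain ⟨t', rfl⟩ := Nat.exists_eq_succ_of_ne_zero (show t ≠ 0 by omega)
        rw [pow_succ, pow_succ] at hj
        omega
      rw [hj0, pow_zero] at hj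
      have hcard2 : Nat.card G = 2 := by
        rw [hcard, hj]; omega
      haveI : Fact (Nat.Prime 2) := ⟨Nat.prime_two⟩
      haveI : IsAddCyclic G := isAddCyclic_of_prime_card hcard2
      have e' := zmodAddCyclicAddEquiv (inferInstance : IsAddCyclic G)
      rw [hcard2] at e'
      exact ⟨e'.symm⟩
  · rintro (⟨r, ⟨e⟩⟩ | h)
    · exact attains_of_four r e
    · obtain ⟨e⟩ := h
      exact attains_of_two e

/-! ### index two -/

lemma zmod2_cases : ∀ z : ZMod 2, z = 0 ∨ z = 1 := by decide
lemma zmod2_ne : ∀ z : ZMod 2, z ≠ 0 → z = 1 := by decide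

lemma exists_char {G : Type*} [AddCommGroup G] [Fintype G] (hev : Even (Fintype.card G)) :
    ∃ φ : G →+ ZMod 2, Function.Surjective φ := by
  classical
  let f : G →+ G := nsmulAddMonoidHom 2
  have hf : ∀ g, f g = 2 • g := fun _ => rfl
  haveI : Fact (Nat.Prime 2) := ⟨Nat.prime_two⟩
  obtain ⟨x, hx⟩ := exists_prime_addOrderOf_dvd_card 2 (even_iff_two_dvd.1 hev)
  have hx0 : x ≠ 0 := by
    rintro rfl
    rw [addOrderOf_zero] at hx
    omega
  have hxk : f x = 0 := by
    rw [hf, ← hx]; exact addOrderOf_nsmul_eq_zero x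
  have hns : ¬ Function.Surjective f := by
    intro hs
    have hi := Finite.injective_iff_surjective.2 hs
    exact hx0 (hi (by rw [hxk, map_zero]))
  have hex : ∃ g, g ∉ f.range := by
    by_contra hc
    push Not at hc
    exact hns (fun g => hc g)
  obtain ⟨g, hg⟩ := hex
  obtain ⟨r, ⟨e⟩⟩ := structp 2 Nat.prime_two (G ⧸ f.range) (by
    intro q
    obtain ⟨y, rfl⟩ := QuotientAddGroup.mk_surjective q
    rw [← QuotientAddGroup.mk_nsmul, QuotientAddGroup.eq_zero_iff]
    exact ⟨y, rfl⟩)
  have hne : e (QuotientAddGroup.mk g) ≠ 0 := by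
    intro h
    have h' : (QuotientAddGroup.mk g : G ⧸ f.range) = 0 := e.injective (by rw [h, map_zero])
    exact hg ((QuotientAddGroup.eq_zero_iff g).1 h')
  obtain ⟨i, hi⟩ : ∃ i, e (QuotientAddGroup.mk g) i ≠ 0 := by
    by_contra hc
    push Not at hc
    exact hne (funext hc)
  refine ⟨(Pi.evalAddMonoidHom (fun _ : Fin r => ZMod 2) i).comp
    (e.toAddMonoidHom.comp (QuotientAddGroup.mk' f.range)), ?_⟩
  have hval : ((Pi.evalAddMonoidHom (fun _ : Fin r => ZMod 2) i).comp
    (e.toAddMonoidHom.comp (QuotientAddGroup.mk' f.range))) g = 1 := by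
    exact zmod2_ne _ hi
  intro z
  have h2 := zmod2_cases
  rcases h2 z with rfl | rfl
  · exact ⟨0, map_zero _⟩
  · exact ⟨g, hval⟩

lemma card_fibre {G : Type*} [AddCommGroup G] [Fintype G] (φ : G →+ ZMod 2)
    (hφ : Function.Surjective φ) :
    2 * (Finset.univ.filter (fun g => φ g = 0)).card = Fintype.card G ∧
    2 * (Finset.univ.filter (fun g => ¬ φ g = 0)).card = Fintype.card G := by
  classical
  obtain ⟨u, hu⟩ := hφ 1
  have h2 := zmod2_cases
  have hcard : (Finset.univ.filter (fun g => φ g = 0)).card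
      = (Finset.univ.filter (fun g => ¬ φ g = 0)).card := by
    apply Finset.card_bij (fun g _ => g + u)
    · intro g hg
      rw [Finset.mem_filter] at hg ⊢
      refine ⟨Finset.mem_univ _, ?_⟩
      rw [map_add, hg.2, hu, zero_add]
      decide
    · intro a _ b _ h
      exact add_right_cancel h
    · intro b hb
      rw [Finset.mem_filter] at hb
      refine ⟨b - u, ?_, by abel⟩
      rw [Finset.mem_filter]
      refine ⟨Finset.mem_univ _, ?_⟩
      rcases h2 (φ b) with h | h
      · exact absurd h hb.2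
      · rw [map_sub, h, hu, sub_self]
  have hsum := Finset.card_filter_add_card_filter_not (s := (Finset.univ : Finset G))
    (fun g => φ g = 0)
  rw [Finset.card_univ] at hsum
  omega

lemma square_condition {G : Type*} [AddCommGroup G] [Fintype G] (hev : Even (Fintype.card G))
    (A : Finset G) (hA : IsSidon A) :
    ∃ k : ℕ, k % 2 = A.card % 2 ∧
      A.card ≤ k ^ 2 + (Fintype.card G + A.card - A.card ^ 2) ∧
      k ^ 2 + 2 ≤ A.card + (Fintype.card G + A.card - A.card ^ 2) := by
  classical
  obtain ⟨φ, hφ⟩ := exists_char hev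
  obtain ⟨hc0, hc1⟩ := card_fibre φ hφ
  have h2 := zmod2_cases
  set X := A.filter (fun a => φ a = 0) with hX
  set Y := A.filter (fun a => ¬ φ a = 0) with hY
  have hXY : X.card + Y.card = A.card := Finset.card_filter_add_card_filter_not _
  have hinj : Set.InjOn (fun p : G × G => p.1 - p.2) A.offDiag := by
    intro p hp p' hp' h
    have hp := Finset.mem_offDiag.1 hp
    have hp' := Finset.mem_offDiag.1 hp'
    have h2 : p.1 + p'.2 = p'.1 + p.2 := by
      have h3 : p.1 - p.2 = p'.1 - p'.2 := h
      rw [sub_eq_sub_iff_add_eq_add] at h3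
      exact h3
    rcases hA p.1 hp.1 p'.2 hp'.2.1 p'.1 hp'.1 p.2 hp.2.1 h2 with h4 | h4
    · exact Prod.ext h4.1 h4.2.symm
    · exact absurd h4.1 hp.2.2
  -- same class differences
  have hD0 : X.offDiag.card + Y.offDiag.card + 1 ≤ (Finset.univ.filter (fun g => φ g = 0)).card := by
    have hdisj : Disjoint X.offDiag Y.offDiag := by
      rw [Finset.disjoint_left]
      intro p hp hp'
      have hp := (Finset.mem_offDiag.1 hp).1
      have hp' := (Finset.mem_offDiag.1 hp').1
      exact (Finset.mem_filter.1 hp').2 (Finset.mem_filter.1 hp).2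
    rw [← Finset.card_union_of_disjoint hdisj]
    have hle : (X.offDiag ∪ Y.offDiag).card ≤ ((Finset.univ.filter (fun g => φ g = 0)).erase 0).card := by
      apply Finset.card_le_card_of_injOn (fun p => p.1 - p.2)
      · intro p hp
        rw [Finset.mem_coe, Finset.mem_union, Finset.mem_offDiag, Finset.mem_offDiag] at hp
        rw [Finset.mem_coe, Finset.mem_erase, Finset.mem_filter]
        rcases hp with ⟨h1, h3, h5⟩ | ⟨h1, h3, h5⟩
        · refine ⟨sub_ne_zero.2 h5, Finset.mem_univ _, ?_⟩
          rw [map_sub, (Finset.mem_filter.1 h1).2, (Finset.mem_filter.1 h3).2, sub_zero]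
        · refine ⟨sub_ne_zero.2 h5, Finset.mem_univ _, ?_⟩
          rcases h2 (φ p.1) with h | h
          · exact absurd h (Finset.mem_filter.1 h1).2
          · rcases h2 (φ p.2) with h' | h'
            · exact absurd h' (Finset.mem_filter.1 h3).2
            · rw [map_sub, h, h', sub_self]
      · apply hinj.mono
        intro p hp
        rw [Finset.mem_coe, Finset.mem_union, Finset.mem_offDiag, Finset.mem_offDiag] at hp
        rw [Finset.mem_coe, Finset.mem_offDiag]
        rcases hp with ⟨h1, h3, h5⟩ | ⟨h1, h3, h5⟩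
        · exact ⟨(Finset.mem_filter.1 h1).1, (Finset.mem_filter.1 h3).1, h5⟩
        · exact ⟨(Finset.mem_filter.1 h1).1, (Finset.mem_filter.1 h3).1, h5⟩
    have hmem : (0 : G) ∈ Finset.univ.filter (fun g => φ g = 0) := by
      rw [Finset.mem_filter]; exact ⟨Finset.mem_univ _, map_zero _⟩
    rw [Finset.card_erase_of_mem hmem] at hle
    have hpos : 0 < (Finset.univ.filter (fun g => φ g = 0)).card := Finset.card_pos.2 ⟨0, hmem⟩
    omega
  have hD1 : 2 * (X.card * Y.card) ≤ (Finset.univ.filter (fun g => ¬ φ g = 0)).card := by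
    have hdisj : Disjoint (X ×ˢ Y) (Y ×ˢ X) := by
      rw [Finset.disjoint_left]
      intro p hp hp'
      have hp := (Finset.mem_product.1 hp).1
      have hp' := (Finset.mem_product.1 hp').1
      exact (Finset.mem_filter.1 hp').2 (Finset.mem_filter.1 hp).2
    have hcu : ((X ×ˢ Y) ∪ (Y ×ˢ X)).card = 2 * (X.card * Y.card) := by
      rw [Finset.card_union_of_disjoint hdisj, Finset.card_product, Finset.card_product]
      ring
    rw [← hcu]
    apply Finset.card_le_card_of_injOn (fun p => p.1 - p.2)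
    · intro p hp
      rw [Finset.mem_coe, Finset.mem_union, Finset.mem_product, Finset.mem_product] at hp
      rw [Finset.mem_coe, Finset.mem_filter]
      refine ⟨Finset.mem_univ _, ?_⟩
      rcases hp with ⟨h1, h3⟩ | ⟨h1, h3⟩
      · rcases h2 (φ p.2) with h' | h'
        · exact absurd h' (Finset.mem_filter.1 h3).2
        · rw [map_sub, (Finset.mem_filter.1 h1).2, h']; decide
      · rcases h2 (φ p.1) with h' | h'
        · exact absurd h' (Finset.mem_filter.1 h1).2
        · rw [map_sub, (Finset.mem_filter.1 h3).2, h']; decide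
    · apply hinj.mono
      intro p hp
      rw [Finset.mem_coe, Finset.mem_union, Finset.mem_product, Finset.mem_product] at hp
      rw [Finset.mem_coe, Finset.mem_offDiag]
      rcases hp with ⟨h1, h3⟩ | ⟨h1, h3⟩
      · refine ⟨(Finset.mem_filter.1 h1).1, (Finset.mem_filter.1 h3).1, ?_⟩
        intro h
        rw [h] at h1
        exact (Finset.mem_filter.1 h3).2 (Finset.mem_filter.1 h1).2
      · refine ⟨(Finset.mem_filter.1 h1).1, (Finset.mem_filter.1 h3).1, ?_⟩
        intro h
        rw [h] at h1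
        exact (Finset.mem_filter.1 h1).2 (Finset.mem_filter.1 h3).2
  rw [Finset.offDiag_card, Finset.offDiag_card] at hD0
  have hx1 : X.card ≤ X.card * X.card := Nat.le_mul_self _
  have hy1 : Y.card ≤ Y.card * Y.card := Nat.le_mul_self _
  have hdiff := sidon_diff A hA
  have e0 : ((X.card * X.card - X.card : ℕ) : ℤ) = (X.card : ℤ) * X.card - X.card := by
    rw [Nat.cast_sub hx1]; push_cast; ring
  have e1 : ((Y.card * Y.card - Y.card : ℕ) : ℤ) = (Y.card : ℤ) * Y.card - Y.card := by
    rw [Nat.cast_sub hy1]; push_cast; ring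
  have z0 : (X.card : ℤ) * X.card - X.card + ((Y.card : ℤ) * Y.card - Y.card) + 1
      ≤ ((Finset.univ.filter (fun g => φ g = 0)).card : ℤ) := by
    rw [← e0, ← e1]; exact_mod_cast hD0
  have z1 : 2 * ((X.card : ℤ) * Y.card) ≤ ((Finset.univ.filter (fun g => ¬ φ g = 0)).card : ℤ) := by
    exact_mod_cast hD1
  have z2 : 2 * ((Finset.univ.filter (fun g => φ g = 0)).card : ℤ) = Fintype.card G := by
    exact_mod_cast hc0
  have z3 : 2 * ((Finset.univ.filter (fun g => ¬ φ g = 0)).card : ℤ) = Fintype.card G := by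
    exact_mod_cast hc1
  have z4 : (X.card : ℤ) + Y.card = A.card := by exact_mod_cast hXY
  have hle : A.card ^ 2 ≤ Fintype.card G + A.card := by rw [pow_two]; omega
  refine ⟨Int.natAbs ((X.card : ℤ) - Y.card), by omega, ?_, ?_⟩
  · zify [hle]
    rw [sq_abs]
    nlinarith
  · zify [hle]
    rw [sq_abs]
    nlinarith

lemma explicit {G : Type*} [AddCommGroup G] [Fintype G] (r d : ℕ) (hd : Even d) (hd0 : 0 < d)
    (hdr : d < 2 * r) (hcard : Fintype.card G = r ^ 2 * (r ^ 2 + 1) + d) : ¬ Attains G := by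
  intro h
  obtain ⟨A, hA, hc⟩ := attains_iff.1 h
  have hr : 1 ≤ r := by omega
  have hn : 1 ≤ Fintype.card G := Fintype.card_pos
  have hU : U (Fintype.card G) = r ^ 2 + 1 := by
    apply le_antisymm
    · by_contra hcon
      push Not at hcon
      have h2 : r ^ 2 + 1 + 1 ≤ U (Fintype.card G) := hcon
      rw [le_U_iff (by omega) hn, hcard] at h2
      nlinarith
    · rw [le_U_iff (by omega) hn, hcard]
      nlinarith
  have hpar : Even (r ^ 2 * (r ^ 2 + 1)) := Nat.even_mul_succ_self _
  have hev : Even (Fintype.card G) := by rw [hcard]; exact hpar.add hd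
  obtain ⟨k, hk1, hk2, hk3⟩ := square_condition hev A hA
  rw [hc, hU] at hk1 hk2 hk3
  have hdelta : Fintype.card G + (r ^ 2 + 1) - (r ^ 2 + 1) ^ 2 = d := by
    rw [hcard]
    have : r ^ 2 * (r ^ 2 + 1) + d + (r ^ 2 + 1) = (r ^ 2 + 1) ^ 2 + d := by ring
    rw [this]; omega
  rw [hdelta] at hk2 hk3
  -- (r-1)^2 < k^2 < (r+1)^2 and k has the parity of r+1
  have h1 : k < r + 1 := by
    by_contra hcon
    push Not at hcon
    have : (r + 1) ^ 2 ≤ k ^ 2 := Nat.pow_le_pow_left hcon 2
    nlinarith
  have h2 : r < k + 1 := by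
    by_contra hcon
    push Not at hcon
    have h3 : (k + 1) ^ 2 ≤ r ^ 2 := Nat.pow_le_pow_left hcon 2
    obtain ⟨v, hv⟩ := Nat.exists_eq_add_of_le hcon
    subst hv
    nlinarith
  have h3 : k = r := by omega
  subst h3
  have h4 : (k ^ 2 + 1) % 2 = (k + 1) % 2 := by
    rw [Nat.add_mod, Nat.pow_mod]
    rcases Nat.mod_two_eq_zero_or_one k with h | h <;> rw [h] <;> omega
  omega

/-- **Main result.** -/
theorem result (G : Type) [AddCommGroup G] [Fintype G] :
    (Fintype.card G ≤ Nat.card {g : G // 2 • g = 0} ^ 2 → (∃ k : ℕ, Fintype.card G = 2 ^ k) →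
      (Attains G ↔ (∃ r : ℕ, Nonempty (G ≃+ (Fin r → ZMod 4))) ∨ Nonempty (G ≃+ ZMod 2))) ∧
    (Fintype.card G ≤ Nat.card {g : G // 2 • g = 0} ^ 2 → Attains G →
      (∃ r : ℕ, Nonempty (G ≃+ (Fin r → ZMod 4))) ∨
      ∃ t : ℕ, 1 ≤ t ∧ ∃ (H : Type) (_ : AddCommGroup H), Nat.card H = 2 ^ t - 1 ∧
        Nonempty (G ≃+ (Fin t → ZMod 2) × H)) ∧
    ((∃ r : ℕ, Nonempty (G ≃+ (Fin r → ZMod 4))) ∨
      (∃ p t : ℕ, p.Prime ∧ 1 ≤ t ∧ Nonempty (G ≃+ (Fin t → ZMod p) × ZMod (p ^ t - 1))) →
      Attains G) ∧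
    (Even (Fintype.card G) → Attains G →
      ∃ k : ℕ, k % 2 = U (Fintype.card G) % 2 ∧
        U (Fintype.card G) ≤ k ^ 2 +
          (Fintype.card G + U (Fintype.card G) - U (Fintype.card G) ^ 2) ∧
        k ^ 2 + 2 ≤ U (Fintype.card G) +
          (Fintype.card G + U (Fintype.card G) - U (Fintype.card G) ^ 2)) ∧
    (∀ r d : ℕ, Even d → 0 < d → d < 2 * r →
      Fintype.card G = r ^ 2 * (r ^ 2 + 1) + d → ¬ Attains G) := by
  refine ⟨two_group, fun h1 h2 => forward_large h2 h1, ?_, fun hev h => ?_,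
    fun r d hd hd0 hdr hcard => explicit r d hd hd0 hdr hcard⟩
  · rintro (⟨r, ⟨e⟩⟩ | ⟨p, t, hp, ht, ⟨e⟩⟩)
    · exact attains_of_four r e
    · exact attains_spence p t hp ht e
  · obtain ⟨A, hA, hc⟩ := attains_iff.1 h
    rw [← hc]
    exact square_condition hev A hA

end Pool.Agent.Results.MP_f1f170_co.BoundAttained
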